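import Pool.Agent.Helper65.KH.Goals

/-!
# Project KH, packet SC1 (semicontinuity of the dimension)
-/

set_option autoImplicit false

open MvPolynomial

namespace Pool.Agent.Helper73.KH.SC1

open Pool.Agent.Helper65.KH

/-- the projection from the quotient by `mm M` -/
noncomputable def g {ι : Type} [Fintype ι] (Q : Ideal (MvPolynomial ι ℚ)) (M : ℕ) :
    (MvPolynomial ι ℚ ⧸ mm ι M) →ₐ[ℚ] (MvPolynomial ι ℚ ⧸ (Q ⊔ mm ι M)) :=
  Ideal.Quotient.factorₐ ℚ le_sup_right

theorem g_mk {ι : Type} [Fintype ι] (Q : Ideal (MvPolynomial ι ℚ)) (M : ℕ) (a : MvPolynomial ι ℚ) :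
    g Q M (Ideal.Quotient.mk (mm ι M) a) = Ideal.Quotient.mk (Q ⊔ mm ι M) a := rfl

theorem mem_ker {ι : Type} [Fintype ι] (H : ι → MvPolynomial ι ℚ) (M : ℕ)
    (w : MvPolynomial ι ℚ ⧸ mm ι M) :
    w ∈ LinearMap.ker (g (idl H) M).toLinearMap ↔
      ∃ c : ι → MvPolynomial ι ℚ, Ideal.Quotient.mk (mm ι M) (∑ j, c j * H j) = w := by
  rw [LinearMap.mem_ker]
  constructor
  · intro h
    obtain ⟨a, rfl⟩ := Ideal.Quotient.mk_surjective w
    have h1 : Ideal.Quotient.mk (idl H ⊔ mm ι M) a = 0 := h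
    rw [Ideal.Quotient.eq_zero_iff_mem] at h1
    obtain ⟨q, hq, m, hm, rfl⟩ := Submodule.mem_sup.1 h1
    unfold idl at hq
    rw [Ideal.mem_span_range_iff_exists_fun] at hq
    obtain ⟨c, hc⟩ := hq
    refine ⟨c, ?_⟩
    rw [hc, map_add, Ideal.Quotient.eq_zero_iff_mem.2 hm, add_zero]
  · rintro ⟨c, rfl⟩
    show Ideal.Quotient.mk (idl H ⊔ mm ι M) (∑ j, c j * H j) = 0
    rw [Ideal.Quotient.eq_zero_iff_mem]
    refine Ideal.mem_sup_left ?_
    refine Ideal.sum_mem _ fun j _ => Ideal.mul_mem_left _ _ (Ideal.subset_span ⟨j, rfl⟩)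

theorem t (hFD : S_FD) : S_SC1 := by
  intro ι _ _ κ _ _ R M d t0 h0
  have hW : Module.Finite ℚ (MvPolynomial ι ℚ ⧸ mm ι M) := by
    have := hFD ι ⊥ M
    rwa [bot_sup_eq] at this
  let H : (κ → ℚ) → ι → MvPolynomial ι ℚ := fun t j => ∑ k, t k • R j k
  let V : (κ → ℚ) → Submodule ℚ (MvPolynomial ι ℚ ⧸ mm ι M) :=
    fun t => LinearMap.ker (g (idl (H t)) M).toLinearMap
  have hdim : ∀ t, dq (idl (H t)) M + Module.finrank ℚ (V t) =
      Module.finrank ℚ (MvPolynomial ι ℚ ⧸ mm ι M) := by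
    intro t
    have h1 := LinearMap.finrank_range_add_finrank_ker (g (idl (H t)) M).toLinearMap
    have h2 : LinearMap.range (g (idl (H t)) M).toLinearMap = ⊤ := by
      rw [LinearMap.range_eq_top]
      intro y
      obtain ⟨a, rfl⟩ := Ideal.Quotient.mk_surjective y
      exact ⟨Ideal.Quotient.mk (mm ι M) a, rfl⟩
    rw [h2, finrank_top] at h1
    exact h1
  have hmem : ∀ t w, w ∈ V t ↔
      ∃ c : ι → MvPolynomial ι ℚ, Ideal.Quotient.mk (mm ι M) (∑ j, c j * H t j) = w :=
    fun t w => mem_ker (H t) M w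
  obtain ⟨ψ, hψ⟩ := LinearMap.exists_leftInverse_of_injective (V t0).subtype
    (by rw [Submodule.ker_subtype])
  let r := Module.finrank ℚ (V t0)
  let b : Module.Basis (Fin r) ℚ (V t0) := Module.finBasis ℚ (V t0)
  choose c hc using fun i => (hmem t0 ((b i : V t0) : MvPolynomial ι ℚ ⧸ mm ι M)).1 (b i).2
  let L : Fin r → MvPolynomial ι ℚ →ₗ[ℚ] ℚ := fun l =>
    (b.coord l).comp (ψ.comp (Ideal.Quotient.mkₐ ℚ (mm ι M)).toLinearMap)
  let N : Matrix (Fin r) (Fin r) (MvPolynomial κ ℚ) :=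
    fun i l => ∑ k, C (L l (∑ j, c i j * R j k)) * X k
  have hN : ∀ (t : κ → ℚ) i l, eval t (N i l) = L l (∑ j, c i j * H t j) := by
    intro t i l
    have e1 : (∑ j, c i j * H t j) = ∑ k, t k • (∑ j, c i j * R j k) := by
      simp only [H, Finset.mul_sum, Finset.smul_sum]
      rw [Finset.sum_comm]
      refine Finset.sum_congr rfl fun k _ => Finset.sum_congr rfl fun j _ => ?_
      rw [mul_smul_comm]
    rw [e1, map_sum]
    simp only [map_sum, map_mul, eval_C, eval_X, map_smul, smul_eq_mul]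
    refine Finset.sum_congr rfl fun k _ => ?_
    rw [mul_comm]
  have hdet : ∀ t : κ → ℚ, eval t N.det =
      Matrix.det (fun i l => L l (∑ j, c i j * H t j)) := by
    intro t
    rw [RingHom.map_det]
    congr 1
    funext i l
    exact hN t i l
  refine ⟨N.det, ?_, ?_⟩
  · rw [hdet]
    have : (fun i l => L l (∑ j, c i j * H t0 j)) = (1 : Matrix (Fin r) (Fin r) ℚ) := by
      funext i l
      have e2 : ψ (Ideal.Quotient.mk (mm ι M) (∑ j, c i j * H t0 j)) = b i := by
        rw [hc i]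
        exact LinearMap.congr_fun hψ (b i)
      show b.coord l (ψ (Ideal.Quotient.mk (mm ι M) (∑ j, c i j * H t0 j))) = _
      rw [e2, Module.Basis.coord_apply, Module.Basis.repr_self, Matrix.one_apply,
        Finsupp.single_apply]
    rw [this, Matrix.det_one]
    exact one_ne_zero
  · intro t ht
    rw [hdet] at ht
    have hrow : LinearIndependent ℚ
        (fun i => (fun l => L l (∑ j, c i j * H t j) : Fin r → ℚ)) := by
      have := Matrix.linearIndependent_rows_of_det_ne_zero ht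
      exact this
    have hv : LinearIndependent ℚ (fun i => (⟨Ideal.Quotient.mk (mm ι M) (∑ j, c i j * H t j),
        (hmem t _).2 ⟨c i, rfl⟩⟩ : V t)) := by
      let T : V t →ₗ[ℚ] (Fin r → ℚ) :=
        (LinearMap.pi fun l => (b.coord l).comp ψ).comp (V t).subtype
      refine LinearIndependent.of_comp T ?_
      exact hrow
    have hcard := hv.fintype_card_le_finrank
    rw [Fintype.card_fin] at hcard
    have e0 := hdim t0
    have e1 := hdim t
    have h0' : dq (idl (H t0)) M ≤ d := h0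
    show dq (idl (H t)) M ≤ d
    have hr : r = Module.finrank ℚ (V t0) := rfl
    omega

end Pool.Agent.Helper73.KH.SC1
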